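import Mathlib
import Pool.Agent.H7.Flip
import Pool.Agent.H7.Flip3

namespace Pool.Agent.Results.MP_56a9b7_co.Const

open SimpleGraph Finset Pool.Agent.H7.Flip Pool.Agent.H7.Flip3

/-- Number of edges of `H` with both ends in `S`. -/
noncomputable def inside {V : Type} (H : SimpleGraph V) (S : Set V) : ℕ :=
  (H.induce S).edgeSet.ncard

/-- The colour classes `C₁ C₂ C₃` form an `(a₁,a₂,a₃)`-flip graph `C₁ ⊔ (C₂ ⊔ C₃)`. -/
def IsFlip3 {V : Type} (a₁ a₂ a₃ : ℕ) (C₁ C₂ C₃ : SimpleGraph V) : Prop :=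
  Disjoint C₁ C₂ ∧ Disjoint C₁ C₃ ∧ Disjoint C₂ C₃ ∧
  (∀ v, (C₁.neighborSet v).ncard = a₁) ∧ (∀ v, (C₂.neighborSet v).ncard = a₂) ∧
  (∀ v, (C₃.neighborSet v).ncard = a₃) ∧
  ∀ v, inside C₃ (insert v ((C₁ ⊔ (C₂ ⊔ C₃)).neighborSet v)) <
      inside C₂ (insert v ((C₁ ⊔ (C₂ ⊔ C₃)).neighborSet v)) ∧
    inside C₂ (insert v ((C₁ ⊔ (C₂ ⊔ C₃)).neighborSet v)) <
      inside C₁ (insert v ((C₁ ⊔ (C₂ ⊔ C₃)).neighborSet v))

/-- `(a₁,a₂,a₃)` is a 3-flip sequence. -/
def FlipSeq (a₁ a₂ a₃ : ℕ) : Prop :=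
  0 < a₁ ∧ a₁ < a₂ ∧ a₂ < a₃ ∧ ∃ (V : Type) (_ : Finite V), Nonempty V ∧
    ∃ C₁ C₂ C₃ : SimpleGraph V, IsFlip3 a₁ a₂ a₃ C₁ C₂ C₃

theorem ind_sup {V : Type} {B R : SimpleGraph V} (h : Disjoint B R) (x y : V) :
    ind (B ⊔ R) x y = ind B x y + ind R x y := by
  unfold ind
  by_cases h1 : B.Adj x y
  · simp [h1, dj h h1]
  · by_cases h2 : R.Adj x y <;> simp [h1, h2]

theorem ind_sq {V : Type} (B : SimpleGraph V) (v y : V) : ind B v y * ind B v y = ind B v y := by
  unfold ind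
  split_ifs <;> simp

theorem goodman {V : Type} [Fintype V] {A X : SimpleGraph V} (hd : Disjoint A X) (a : ℤ) (v : V)
    (ha : ∑ y, ind A v y = a) :
    2 * a * (2 * ∑ x, ∑ y, ind A v x * ind A v y * ind A x y +
      3 * ∑ x, ∑ y, ind A v x * ind A v y * ind X x y) -
      2 * ∑ x, ∑ y, ∑ z, ind A v x * ind A v y * ind A v z * (ind X x y * ind X x z * ind X y z)
      ≤ 5 * a ^ 3 := by
  set s := ind A v with hs
  have s0 : ∀ x, 0 ≤ s x := ind_nonneg A v
  have a0 : 0 ≤ a := ha ▸ sum_nonneg fun x _ => s0 x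
  let d : V → ℤ := fun x => ∑ y, s y * ind X x y
  have e1 : ∑ x, ∑ y, s x * s y * ind X x y = ∑ x, s x * d x := by
    simp only [d, mul_sum, mul_assoc]
  have e2 : ∑ x, ∑ y, s x * s y * ind A x y + ∑ x, ∑ y, s x * s y * ind X x y ≤ a ^ 2 := by
    rw [sq, ← ha, sum_mul_sum, ← sum_add_distrib]
    refine sum_le_sum fun x _ => ?_
    rw [← sum_add_distrib]
    refine sum_le_sum fun y _ => ?_
    have := gap_nonneg hd x y
    have : 0 ≤ dl x y := by unfold dl; split_ifs <;> simp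
    rw [← mul_add]
    exact mul_le_of_le_one_right (mul_nonneg (s0 x) (s0 y)) (by omega)
  have e3 : ∑ x, ∑ y, ∑ z, s x * s y * s z * (ind X x y * (ind X x z + ind X y z - 1)) ≤
      ∑ x, ∑ y, ∑ z, s x * s y * s z * (ind X x y * ind X x z * ind X y z) := by
    refine sum_le_sum fun x _ => sum_le_sum fun y _ => sum_le_sum fun z _ =>
      mul_le_mul_of_nonneg_left ?_ (mul_nonneg (mul_nonneg (s0 x) (s0 y)) (s0 z))
    rw [mul_assoc]
    refine mul_le_mul_of_nonneg_left ?_ (ind_nonneg _ _ _)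
    nlinarith [mul_nonneg (sub_nonneg.2 (ind_le X x z)) (sub_nonneg.2 (ind_le X y z))]
  have e4 : ∑ x, ∑ y, ∑ z, s x * s y * s z * (ind X x y * (ind X x z + ind X y z - 1)) =
      ∑ x, ∑ y, s x * d x * (s y * ind X x y) + ∑ x, ∑ y, s y * d y * (s x * ind X y x) -
        a * ∑ x, ∑ y, s x * s y * ind X x y := by
    rw [mul_sum, ← sum_add_distrib, ← sum_sub_distrib]
    refine sum_congr rfl fun x _ => ?_
    rw [mul_sum (a := a), ← sum_add_distrib, ← sum_sub_distrib]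
    refine sum_congr rfl fun y _ => ?_
    rw [← ha, ind_comm X y x]
    simp only [d, mul_sum, sum_mul, ← sum_add_distrib, ← sum_sub_distrib]
    refine sum_congr rfl fun z _ => ?_
    ring
  rw [sum_comm (f := fun x y => s y * d y * (s x * ind X y x))] at e4
  simp only [← mul_sum] at e4
  have e5 : ∑ x, s x * (4 * a * d x - 4 * d x * d x) ≤ ∑ x, s x * a ^ 2 :=
    sum_le_sum fun x _ => mul_le_mul_of_nonneg_left (by nlinarith [sq_nonneg (a - 2 * d x)]) (s0 x)
  have e6 : ∑ x, s x * (4 * a * d x - 4 * d x * d x) =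
      4 * a * ∑ x, s x * d x - 4 * ∑ x, s x * d x * d x := by
    simp only [mul_sum, ← sum_sub_distrib]
    exact sum_congr rfl fun x _ => by ring
  rw [← sum_mul, ha, e6] at e5
  have e7 : ∑ x, s x * d x * ∑ y, s y * ind X x y = ∑ x, s x * d x * d x := rfl
  rw [e7] at e4
  rw [e4] at e3
  rw [e1] at e2 e3 ⊢
  nlinarith [mul_le_mul_of_nonneg_left e2 a0]

theorem upperB {a₁ a₂ a₃ : ℕ} (h : FlipSeq a₁ a₂ a₃) : 4 * a₃ ≤ 5 * a₁ ^ 2 + 4 * a₁ := by
  obtain ⟨h0, h12, -, V, _, _, A, C₂, C₃, d12, d13, d23, r1, r2, r3, hf⟩ := h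
  have := Fintype.ofFinite V
  set X := C₂ ⊔ C₃ with hX
  have hd : Disjoint A X := disjoint_sup_right.2 ⟨d12, d13⟩
  have sb : ∀ v, ∑ y, ind A v y = a₁ := fun v => by rw [sum_ind, r1]
  have sr : ∀ v, ∑ y, ind X v y = a₂ + a₃ := fun v => by
    simp only [hX, ind_sup d23, sum_add_distrib, sum_ind, r2, r3]
  have gg : ∀ v y, (ind A v y + ind X v y) * (2 * ind A v y - ind X v y) =
      2 * ind A v y - ind X v y := by
    intro v y
    unfold ind
    by_cases h1 : A.Adj v y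
    · simp [h1, dj hd h1]
    · by_cases h2 : X.Adj v y <;> simp [h1, h2]
  have l1 : ∀ v, (2 * (a₂ + a₃) - 4 * a₁ : ℤ) ≤ ∑ x, ∑ y, (ind A v x + ind X v x) *
      (ind A v y + ind X v y) * (2 * ind A x y - ind X x y) := by
    intro v
    have e1 := loc hd A v
    have e2 := loc hd C₂ v
    have e3 := loc hd C₃ v
    obtain ⟨f1, f2⟩ := hf v
    unfold inside at f1 f2
    have e4 : 2 * ∑ x, ∑ y, (dl v x + (ind A v x + ind X v x)) *
        (dl v y + (ind A v y + ind X v y)) * ind A x y -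
        ∑ x, ∑ y, (dl v x + (ind A v x + ind X v x)) *
        (dl v y + (ind A v y + ind X v y)) * ind C₂ x y -
        ∑ x, ∑ y, (dl v x + (ind A v x + ind X v x)) *
        (dl v y + (ind A v y + ind X v y)) * ind C₃ x y =
        ∑ x, dl v x * ∑ y, dl v y * (2 * ind A x y - ind X x y) +
        ∑ x, dl v x * ∑ y, (ind A v y + ind X v y) * (2 * ind A x y - ind X x y) +
        ∑ x, (ind A v x + ind X v x) * ∑ y, dl v y * (2 * ind A x y - ind X x y) +
        ∑ x, ∑ y, (ind A v x + ind X v x) * (ind A v y + ind X v y) *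
          (2 * ind A x y - ind X x y) := by
      simp only [mul_sum, ← sum_add_distrib, ← sum_sub_distrib]
      refine sum_congr rfl fun x _ => sum_congr rfl fun y _ => ?_
      rw [show ind X x y = ind C₂ x y + ind C₃ x y from ind_sup d23 x y]
      ring
    simp only [sum_dl, ind_self, gg, ind_comm A _ v, ind_comm X _ v, sum_sub_distrib, sb, sr,
      ← mul_sum] at e4
    omega
  have l2 := sum_le_sum fun v (_ : v ∈ univ) => l1 v
  have e5 : ∑ v, ∑ x, ∑ y, (ind A v x + ind X v x) *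
      (ind A v y + ind X v y) * (2 * ind A x y - ind X x y) =
      2 * T A A A + 2 * T A X A + 2 * T X A A + 2 * T X X A - T A A X - T A X X - T X A X -
        T X X X := by
    simp only [T, mul_sum, ← sum_add_distrib, ← sum_sub_distrib]
    refine sum_congr rfl fun v _ => sum_congr rfl fun x _ => sum_congr rfl fun y _ => ?_
    ring
  have t1 := T23 A X A
  have t2 := T12 X A A
  have t3 := T12 A X X
  have t4 := T23 X A X
  have l3 := sum_le_sum fun v (_ : v ∈ univ) => goodman hd a₁ v (sb v)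
  have l4 : ∑ v, ∑ x, ∑ y, ∑ z, ind A v x * ind A v y * ind A v z *
      (ind X x y * ind X x z * ind X y z) ≤ a₁ * T X X X := by
    rw [sum_comm, T, mul_sum]
    refine sum_le_sum fun x _ => ?_
    rw [sum_comm, mul_sum]
    refine sum_le_sum fun y _ => ?_
    rw [sum_comm, mul_sum]
    refine sum_le_sum fun z _ => ?_
    rw [← sum_mul, ← sb x]
    refine mul_le_mul_of_nonneg_right (sum_le_sum fun v _ => ?_)
      (mul_nonneg (mul_nonneg (ind_nonneg _ _ _) (ind_nonneg _ _ _)) (ind_nonneg _ _ _))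
    rw [ind_comm A x v, mul_assoc]
    exact mul_le_of_le_one_right (ind_nonneg _ _ _)
      (mul_le_one₀ (ind_le _ _ _) (ind_nonneg _ _ _) (ind_le _ _ _))
  simp only [sum_sub_distrib, sum_add_distrib, ← mul_sum, sum_const, card_univ, nsmul_eq_mul]
    at l2 l3
  rw [e5] at l2
  change 2 * (a₁ : ℤ) * (2 * T A A A + 3 * T A A X) - _ ≤ _ at l3
  have hn : (0 : ℤ) < Fintype.card V := by exact_mod_cast Fintype.card_pos
  have ha : (0 : ℤ) < a₁ := by exact_mod_cast h0
  have h12' : (a₁ : ℤ) < a₂ := by exact_mod_cast h12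
  have k : (Fintype.card V * a₁ : ℤ) * (4 * (a₂ + a₃) - 8 * a₁) ≤
      (Fintype.card V * a₁) * (5 * a₁ ^ 2) := by
    nlinarith [mul_le_mul_of_nonneg_left l2 ha.le]
  have := le_of_mul_le_mul_left k (mul_pos hn ha)
  zify
  linarith

theorem toFlip {a₁ a₂ a₃ : ℕ} {e : Fin 3 → ℤ} (h : Ex ![a₁, a₂, a₃] e) (h1 : e 1 < e 0)
    (h2 : e 2 < e 1) : ∃ (V : Type) (_ : Finite V), Nonempty V ∧
      ∃ C₁ C₂ C₃ : SimpleGraph V, IsFlip3 a₁ a₂ a₃ C₁ C₂ C₃ := by
  obtain ⟨V, _, _, _, M, h⟩ := h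
  let C : Fin 3 → SimpleGraph V := fun i =>
    { Adj := fun x y => M i x y = 1
      symm := ⟨fun x y e => by rw [h.sym, e]⟩
      loopless := ⟨fun x e => by rw [h.diag] at e; omega⟩ }
  have hb : ∀ x y, M 0 x y + M 1 x y + M 2 x y ≤ 1 := by
    intro x y
    have := h.le x y
    simp only [Matrix.add_apply, Matrix.one_apply] at this
    split_ifs at this <;> omega
  have hi : ∀ i x y, ind (C i) x y = M i x y := by
    intro i x y
    have := hb x y
    have := h.nn 0 x y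
    have := h.nn 1 x y
    have := h.nn 2 x y
    have : M i x y ≤ 1 := by
      fin_cases i <;> simp only [Fin.zero_eta, Fin.mk_one, Fin.reduceFinMk] <;> omega
    have := h.nn i x y
    unfold ind
    split_ifs with e
    · exact (show M i x y = 1 from e).symm
    · have : M i x y ≠ 1 := e
      omega
  have dis : ∀ i j, (∀ x y, M i x y + M j x y ≤ 1) → Disjoint (C i) (C j) := by
    intro i j hh
    rw [disjoint_iff]
    ext x y
    simp only [inf_adj, bot_adj, iff_false, not_and]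
    intro e1 e2
    have a : M i x y = 1 := e1
    have b : M j x y = 1 := e2
    have := hh x y
    omega
  have d01 := dis 0 1 fun x y => by have := hb x y; have := h.nn 2 x y; omega
  have d02 := dis 0 2 fun x y => by have := hb x y; have := h.nn 1 x y; omega
  have d12 := dis 1 2 fun x y => by have := hb x y; have := h.nn 0 x y; omega
  have dg : ∀ i v, (((C i).neighborSet v).ncard : ℤ) = ![(a₁ : ℤ), a₂, a₃] i := by
    intro i v
    rw [← sum_ind, ← h.deg i v]
    simp only [hi]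
  have ep : ∀ i v, (2 * inside (C i) (insert v ((C 0 ⊔ (C 1 ⊔ C 2)).neighborSet v)) : ℤ) = e i := by
    intro i v
    rw [inside, loc (disjoint_sup_right.2 ⟨d01, d02⟩), ← h.eps i v, sum_comm]
    simp only [Matrix.mul_apply, sum_mul, ind_sup d12, hi, Matrix.add_apply]
    refine sum_congr rfl fun y _ => sum_congr rfl fun x _ => ?_
    have o : ∀ a b : V, (1 : Matrix V V ℤ) a b = dl a b := by
      intro a b
      by_cases t : a = b <;> simp [dl, Matrix.one_apply, t]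
    have o2 : dl y v = dl v y := by
      by_cases t : y = v
      · rw [t]
      · simp [dl, t, Ne.symm t]
    rw [o, o, o2, h.sym 0 y v, h.sym 1 y v, h.sym 2 y v]
    ring
  refine ⟨V, inferInstance, inferInstance, C 0, C 1, C 2, d01, d02, d12, fun v => ?_, fun v => ?_,
    fun v => ?_, fun v => ?_⟩
  · exact_mod_cast (show (((C 0).neighborSet v).ncard : ℤ) = a₁ from dg 0 v)
  · exact_mod_cast (show (((C 1).neighborSet v).ncard : ℤ) = a₂ from dg 1 v)
  · exact_mod_cast (show (((C 2).neighborSet v).ncard : ℤ) = a₃ from dg 2 v)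
  · have := ep 0 v
    have := ep 1 v
    have := ep 2 v
    omega

theorem lowerB (k : ℕ) (hp : (k + 1).Prime) (j : ℕ) (hj : 2 * k ^ 3 + 8 * k ^ 2 + 6 * k + 1 ≤ j) :
    ∃ r, r + 1 = (j + 1) ^ 2 * (5 * k ^ 2 + 4 * k) ∧
    FlipSeq ((j + 1) * (2 * k) + j) ((j + 1) * (2 * k ^ 3 + 6 * k ^ 2 + 4 * k))
      ((j + 1) * (2 * k ^ 2) + r) := by
  have hk : 1 ≤ k := by have := hp.two_le; omega
  obtain ⟨r, hr⟩ : ∃ r, r + 1 = (j + 1) ^ 2 * (5 * k ^ 2 + 4 * k) :=
    ⟨_, Nat.sub_add_cancel (Nat.mul_pos (by positivity) (by omega))⟩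
  have k2 : k ≤ k ^ 2 := by nlinarith
  refine ⟨r, hr, by omega, by nlinarith, ?_, ?_⟩
  · have : (j + 1) * (2 * k ^ 3 + 6 * k ^ 2 + 4 * k) + (j + 1) ≤ (j + 1) * (j + 1) := by
      rw [← Nat.mul_succ]
      exact Nat.mul_le_mul_left _ (by omega)
    have : (j + 1) ^ 2 * 1 ≤ (j + 1) ^ 2 * (5 * k ^ 2 + 4 * k) := Nat.mul_le_mul_left _ (by omega)
    nlinarith
  · have := cube (blow (cube (quad k hp) 1 (2 * k ^ 3 + 6 * k ^ 2 + 4 * k)) (j + 1) (by omega)) 2 r
    have hr' : (r : ℤ) + 1 = (j + 1) ^ 2 * (5 * k ^ 2 + 4 * k) := by exact_mod_cast hr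
    have hj' : 2 * (k : ℤ) ^ 3 + 8 * k ^ 2 + 6 * k + 1 ≤ j := by exact_mod_cast hj
    have s0 : ∀ x : ℤ, (Pi.single 0 x : Fin 3 → ℤ) = ![x, 0, 0] := fun x => by
      funext i; fin_cases i <;> rfl
    have s1 : ∀ x : ℤ, (Pi.single 1 x : Fin 3 → ℤ) = ![0, x, 0] := fun x => by
      funext i; fin_cases i <;> rfl
    have s2 : ∀ x : ℤ, (Pi.single 2 x : Fin 3 → ℤ) = ![0, 0, x] := fun x => by
      funext i; fin_cases i <;> rfl
    simp only [s0, s1, s2] at this
    refine toFlip (by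
      convert this using 1
      funext i
      fin_cases i <;> simp) ?_ ?_
    · simp
      nlinarith
    · simp
      nlinarith

theorem result : IsLUB {c : ℝ | {p : ℕ × ℕ × ℕ |
    FlipSeq p.1 p.2.1 p.2.2 ∧ c * (p.1 : ℝ) ^ 2 ≤ p.2.2}.Infinite} (5 / 4) := by
  constructor
  · intro c hc
    by_contra hlt
    push Not at hlt
    obtain ⟨N, hN⟩ := exists_nat_gt (1 / (c - 5 / 4))
    refine hc (Set.Finite.subset ((Set.finite_Iic N).prod
      ((Set.finite_Iic (5 * N ^ 2 + 4 * N)).prod (Set.finite_Iic (5 * N ^ 2 + 4 * N)))) ?_)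
    rintro ⟨a, b, d⟩ ⟨h, hd⟩
    have u := upperB h
    obtain ⟨h0, -, h2, -⟩ := h
    simp only at u h0 h2 hd
    have u' : (4 * d : ℝ) ≤ 5 * a ^ 2 + 4 * a := by exact_mod_cast u
    have a0 : (0 : ℝ) < a := by exact_mod_cast h0
    have aN : a ≤ N := by
      rw [div_lt_iff₀ (by linarith)] at hN
      have : (c - 5 / 4) * a ≤ 1 := le_of_mul_le_mul_right (by nlinarith) a0
      have : (a : ℝ) < N := lt_of_mul_lt_mul_left (by nlinarith) (sub_pos.2 hlt).le
      exact_mod_cast this.le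
    have : a ^ 2 ≤ N ^ 2 := Nat.pow_le_pow_left aN 2
    simp only [Set.mem_prod, Set.mem_Iic]
    omega
  · intro u hu
    refine le_of_forall_lt_imp_le_of_dense fun c hc => hu ?_
    obtain ⟨N, hN⟩ := exists_nat_gt (1 / (5 / 4 - c))
    obtain ⟨p, hpN, hp⟩ := Nat.exists_infinite_primes (N + 2)
    obtain ⟨k, rfl⟩ : ∃ k, p = k + 1 := ⟨p - 1, by omega⟩
    choose r hr hs using fun j => lowerB k hp (j + (2 * k ^ 3 + 8 * k ^ 2 + 6 * k + 1)) (by omega)
    set W := 2 * k ^ 3 + 8 * k ^ 2 + 6 * k + 1 with hW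
    refine Set.infinite_of_injective_forall_mem (f := fun j : ℕ =>
      (((j + W + 1) * (2 * k) + (j + W), (j + W + 1) * (2 * k ^ 3 + 6 * k ^ 2 + 4 * k),
        (j + W + 1) * (2 * k ^ 2) + r j) : ℕ × ℕ × ℕ)) ?_ fun j => ⟨hs j, ?_⟩
    · intro a b e
      have := (Prod.ext_iff.1 e).1
      simp only at this
      nlinarith [le_total a b, Nat.zero_le k]
    · have hr' : (r j : ℝ) + 1 = ((j + W : ℕ) + 1) ^ 2 * (5 * k ^ 2 + 4 * k) := by
        exact_mod_cast hr j
      generalize j + W = m at hr' ⊢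
      push_cast
      have hk : (N : ℝ) + 1 ≤ k := by exact_mod_cast (by omega : N + 1 ≤ k)
      have N0 : (0 : ℝ) ≤ N := by positivity
      have m0 : (0 : ℝ) ≤ m := by positivity
      rw [div_lt_iff₀ (by linarith)] at hN
      have c1 : c * (2 * k + 1) ^ 2 ≤ 5 * k ^ 2 + 4 * k := by
        have : 1 ≤ (5 / 4 - c) * k := by nlinarith
        nlinarith
      have c2 : c * ((m + 1) * (2 * k) + m) ^ 2 ≤ (m + 1) ^ 2 * (5 * k ^ 2 + 4 * k) := by
        rcases le_total c 0 with c0 | c0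
        · exact (mul_nonpos_of_nonpos_of_nonneg c0 (by positivity)).trans (by positivity)
        · calc _ ≤ c * ((m + 1) * (2 * k + 1)) ^ 2 := by gcongr; linarith
            _ = (m + 1) ^ 2 * (c * (2 * k + 1) ^ 2) := by ring
            _ ≤ _ := by gcongr
      nlinarith

end Pool.Agent.Results.MP_56a9b7_co.Const
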